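import Pool.Agent.H773.LK.Spec

/-! Local determinants (`S_DET`). -/

set_option autoImplicit false

noncomputable section

namespace Pool.Agent.H619.LK

open MeasureTheory Filter Topology Set
open Pool.Agent.H773.LK
open scoped ENNReal NNReal ComplexConjugate InnerProductSpace

section det

theorem prod_lip {ι : Type*} (s : Finset ι) (a b : ι → ℂ) (K ε : ℝ) (hK : 1 ≤ K) (hε : 0 ≤ ε)
    (ha : ∀ i, ‖a i‖ ≤ K) (hb : ∀ i, ‖b i‖ ≤ K) (hab : ∀ i, ‖a i - b i‖ ≤ ε) :
    ‖∏ i ∈ s, a i - ∏ i ∈ s, b i‖ ≤ s.card * K ^ s.card * ε := by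
  classical
  induction s using Finset.induction_on with
  | empty => simp
  | insert j s hj ih =>
    rw [Finset.prod_insert hj, Finset.prod_insert hj, Finset.card_insert_of_notMem hj]
    have e1 : a j * ∏ i ∈ s, a i - b j * ∏ i ∈ s, b i =
        a j * (∏ i ∈ s, a i - ∏ i ∈ s, b i) + (a j - b j) * ∏ i ∈ s, b i := by ring
    have e2 : ‖∏ i ∈ s, b i‖ ≤ K ^ s.card := by
      rw [norm_prod]
      calc ∏ i ∈ s, ‖b i‖ ≤ ∏ i ∈ s, K :=
            Finset.prod_le_prod (fun i _ => norm_nonneg _) (fun i _ => hb i)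
        _ = K ^ s.card := by simp
    have hK0 : 0 ≤ K := by linarith
    have hKp : 0 ≤ K ^ s.card := pow_nonneg hK0 _
    have hKq : K ^ s.card ≤ K ^ (s.card + 1) := pow_le_pow_right₀ hK (Nat.le_succ _)
    rw [e1]
    calc ‖a j * (∏ i ∈ s, a i - ∏ i ∈ s, b i) + (a j - b j) * ∏ i ∈ s, b i‖
        ≤ ‖a j‖ * ‖∏ i ∈ s, a i - ∏ i ∈ s, b i‖ + ‖a j - b j‖ * ‖∏ i ∈ s, b i‖ := by
          refine (norm_add_le _ _).trans ?_
          rw [norm_mul, norm_mul]
      _ ≤ K * (s.card * K ^ s.card * ε) + ε * K ^ s.card := by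
          gcongr
          · exact ha j
          · exact hab j
      _ ≤ K * (s.card * K ^ s.card * ε) + ε * K ^ (s.card + 1) := by gcongr
      _ = ((s.card + 1 : ℕ) : ℝ) * K ^ (s.card + 1) * ε := by push_cast; ring

theorem det_lip (n : ℕ) (K : ℝ) (hK : 1 ≤ K) : ∃ C : ℝ, 0 ≤ C ∧
    ∀ (A B : Matrix (Fin n) (Fin n) ℂ) (ε : ℝ), 0 ≤ ε → (∀ i j, ‖A i j‖ ≤ K) →
    (∀ i j, ‖B i j‖ ≤ K) → (∀ i j, ‖A i j - B i j‖ ≤ ε) → ‖A.det - B.det‖ ≤ C * ε := by
  classical
  refine ⟨∑ _σ : Equiv.Perm (Fin n), (n : ℝ) * K ^ n, by positivity, ?_⟩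
  intro A B ε hε hA hB hAB
  rw [Matrix.det_apply', Matrix.det_apply', ← Finset.sum_sub_distrib, Finset.sum_mul]
  refine (norm_sum_le _ _).trans (Finset.sum_le_sum fun σ _ => ?_)
  rw [← mul_sub, norm_mul]
  have e1 : ‖(((Equiv.Perm.sign σ : ℤˣ) : ℤ) : ℂ)‖ = 1 := by
    rcases Int.units_eq_one_or (Equiv.Perm.sign σ) with h | h <;> simp [h]
  rw [e1, one_mul]
  have := prod_lip Finset.univ (fun i => A (σ i) i) (fun i => B (σ i) i) K ε hK hε
    (fun i => hA _ _) (fun i => hB _ _) (fun i => hAB _ _)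
  simpa using this

theorem det_diff (n : ℕ) (A : ℂ → Matrix (Fin n) (Fin n) ℂ) (U : Set ℂ)
    (hA : ∀ i j, DifferentiableOn ℂ (fun θ => A θ i j) U) :
    DifferentiableOn ℂ (fun θ => (A θ).det) U := by
  classical
  have e : (fun θ => (A θ).det) = fun θ => ∑ σ : Equiv.Perm (Fin n),
      (((Equiv.Perm.sign σ : ℤˣ) : ℤ) : ℂ) * ∏ i, A θ (σ i) i := by
    funext θ; rw [Matrix.det_apply']
  rw [e]
  refine DifferentiableOn.fun_sum fun σ _ => ?_
  refine DifferentiableOn.const_mul ?_ _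
  exact DifferentiableOn.fun_finset_prod fun i _ => hA _ _

end det

section alg

variable {E : Type} [NormedAddCommGroup E] [InnerProductSpace ℂ E]

/-- the coordinates -/
def QQ {n : ℕ} (b : Fin n → E) : E →L[ℂ] (Fin n → ℂ) :=
  ContinuousLinearMap.pi fun i => innerSL ℂ (b i)

/-- the synthesis -/
def JJ {n : ℕ} (b : Fin n → E) : (Fin n → ℂ) →L[ℂ] E :=
  ∑ i, (ContinuousLinearMap.proj (R := ℂ) (φ := fun _ : Fin n => ℂ) i).smulRight (b i)

/-- the projection -/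
def PP {n : ℕ} (b : Fin n → E) : E →L[ℂ] E := (JJ b).comp (QQ b)

theorem QQ_apply {n : ℕ} (b : Fin n → E) (e : E) (i : Fin n) : QQ b e i = inner ℂ (b i) e := by
  simp [QQ]

theorem JJ_apply {n : ℕ} (b : Fin n → E) (c : Fin n → ℂ) : JJ b c = ∑ i, c i • b i := by
  simp [JJ, ContinuousLinearMap.sum_apply]

theorem QJ {n : ℕ} (b : Fin n → E) (hb : Orthonormal ℂ b) (c : Fin n → ℂ) :
    QQ b (JJ b c) = c := by
  funext i
  rw [QQ_apply, JJ_apply]
  exact hb.inner_right_fintype c i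

theorem PP_perp {n : ℕ} (b : Fin n → E) (hb : Orthonormal ℂ b) (e : E) (i : Fin n) :
    inner ℂ (b i) (e - PP b e) = (0 : ℂ) := by
  rw [← QQ_apply, map_sub, PP, ContinuousLinearMap.comp_apply, QJ b hb]
  simp

theorem PP_le {n : ℕ} (b : Fin n → E) (hb : Orthonormal ℂ b) (e : E) :
    ‖e - PP b e‖ ≤ ‖e‖ := by
  set f := e - PP b e with hf
  have h1 : inner ℂ f (PP b e) = (0 : ℂ) := by
    rw [PP, ContinuousLinearMap.comp_apply, JJ_apply, inner_sum]
    refine Finset.sum_eq_zero fun i _ => ?_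
    rw [inner_smul_right, ← inner_conj_symm, PP_perp b hb e i]
    simp
  have h2 : (inner ℂ f f : ℂ) = inner ℂ f e := by
    have : inner ℂ f f = inner ℂ f e - inner ℂ f (PP b e) := by
      rw [← inner_sub_right]
    rw [this, h1, sub_zero]
  have h3 : ‖f‖ ^ 2 ≤ ‖f‖ * ‖e‖ := by
    have := inner_self_eq_norm_sq (𝕜 := ℂ) f
    rw [← this, h2]
    exact (RCLike.re_le_norm _).trans (norm_inner_le_norm f e)
  by_cases h : ‖f‖ = 0
  · rw [h]; exact norm_nonneg _
  · have : 0 < ‖f‖ := lt_of_le_of_ne (norm_nonneg _) (Ne.symm h)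
    nlinarith

/-- the matrix of `1 - S` -/
def MM {n : ℕ} (b : Fin n → E) (S : E →L[ℂ] E) : Matrix (Fin n) (Fin n) ℂ :=
  fun i j => (if i = j then 1 else 0) - inner ℂ (b i) (S (b j))

theorem MM_mulVec {n : ℕ} (b : Fin n → E) (S : E →L[ℂ] E) (c : Fin n → ℂ) :
    (MM b S).mulVec c = c - QQ b (S (JJ b c)) := by
  classical
  funext i
  rw [JJ_apply, map_sum, Pi.sub_apply, QQ_apply, inner_sum]
  simp only [Matrix.mulVec, dotProduct, MM, sub_mul, Finset.sum_sub_distrib, map_smul,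
    inner_smul_right]
  congr 1
  · simp
  · exact Finset.sum_congr rfl fun j _ => mul_comm _ _

theorem unit_iff {n : ℕ} (b : Fin n → E) (hb : Orthonormal ℂ b) (S : E →L[ℂ] E) :
    IsUnit (1 - S * PP b) ↔ (MM b S).det ≠ 0 := by
  classical
  constructor
  · intro hu hd
    obtain ⟨c, hc, hM⟩ := Matrix.exists_mulVec_eq_zero_iff.2 hd
    rw [MM_mulVec, sub_eq_zero] at hM
    set e := S (JJ b c) with he
    have h1 : (1 - S * PP b) e = 0 := by
      have : (S * PP b) e = S (JJ b (QQ b e)) := rfl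
      rw [ContinuousLinearMap.sub_apply, this, ← hM, ← he]
      simp
    obtain ⟨u, hu⟩ := hu
    have h2 : e = 0 := by
      have : ((u⁻¹ : (E →L[ℂ] E)ˣ) * u : E →L[ℂ] E) e = 0 := by
        rw [ContinuousLinearMap.mul_apply, hu, h1, map_zero]
      simpa using this
    apply hc
    rw [hM, h2, map_zero]
  · intro hd
    set M := MM b S with hM
    have hMu : IsUnit M.det := isUnit_iff_ne_zero.2 hd
    set N : (Fin n → ℂ) →L[ℂ] (Fin n → ℂ) := LinearMap.toContinuousLinearMap (Matrix.toLin' M⁻¹)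
      with hN
    have hNa : ∀ c, N c = M⁻¹.mulVec c := fun c => by
      simp [hN]
    have hMN : ∀ c, N c - QQ b (S (JJ b (N c))) = c := fun c => by
      rw [← MM_mulVec, hNa, Matrix.mulVec_mulVec, ← hM, Matrix.mul_nonsing_inv _ hMu,
        Matrix.one_mulVec]
    have hNM : ∀ c, N (c - QQ b (S (JJ b c))) = c := fun c => by
      rw [← MM_mulVec, hNa, Matrix.mulVec_mulVec, ← hM, Matrix.nonsing_inv_mul _ hMu,
        Matrix.one_mulVec]
    set V : E →L[ℂ] E := 1 + S.comp ((JJ b).comp (N.comp (QQ b))) with hV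
    have hVa : ∀ e, V e = e + S (JJ b (N (QQ b e))) := fun e => rfl
    have hSa : ∀ e, (1 - S * PP b) e = e - S (JJ b (QQ b e)) := fun e => rfl
    refine ⟨⟨1 - S * PP b, V, ?_, ?_⟩, rfl⟩
    · ext e
      rw [ContinuousLinearMap.mul_apply, hVa, hSa, ContinuousLinearMap.one_apply]
      have h1 := hMN (QQ b e)
      set c := N (QQ b e)
      have h2 : QQ b (e + S (JJ b c)) = c := by
        rw [map_add, ← h1]; abel
      rw [h2]; abel
    · ext e
      rw [ContinuousLinearMap.mul_apply, hVa, hSa, ContinuousLinearMap.one_apply]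
      have h1 := hNM (QQ b e)
      rw [map_sub (QQ b), h1]; abel

end alg

section inv

variable {E : Type} [NormedAddCommGroup E] [InnerProductSpace ℂ E] [CompleteSpace E]

theorem isUnit_half (a : E →L[ℂ] E) (ha : ‖a‖ ≤ 1 / 2) : IsUnit (1 - a) :=
  ⟨Units.oneSub a (by linarith), by simp⟩

theorem inv_norm (a : E →L[ℂ] E) (ha : ‖a‖ ≤ 1 / 2) : ‖Ring.inverse (1 - a)‖ ≤ 2 := by
  have h1 := Ring.mul_inverse_cancel _ (isUnit_half a ha)
  set I := Ring.inverse (1 - a)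
  have h2 : I = 1 + a * I := by
    rw [sub_mul, one_mul, sub_eq_iff_eq_add] at h1
    exact h1
  have h3 : ‖I‖ ≤ 1 + 1 / 2 * ‖I‖ := by
    calc ‖I‖ = ‖1 + a * I‖ := by rw [← h2]
      _ ≤ ‖(1 : E →L[ℂ] E)‖ + ‖a * I‖ := norm_add_le _ _
      _ ≤ 1 + ‖a‖ * ‖I‖ := by
          gcongr
          · exact ContinuousLinearMap.norm_id_le
          · exact norm_mul_le _ _
      _ ≤ 1 + 1 / 2 * ‖I‖ := by gcongr
  linarith

theorem inv_lip (a a' : E →L[ℂ] E) (ha : ‖a‖ ≤ 1 / 2) (ha' : ‖a'‖ ≤ 1 / 2) :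
    ‖Ring.inverse (1 - a) - Ring.inverse (1 - a')‖ ≤ 4 * ‖a - a'‖ := by
  have h1 := Ring.mul_inverse_cancel _ (isUnit_half a' ha')
  have h2 := Ring.inverse_mul_cancel _ (isUnit_half a ha)
  have n1 := inv_norm a ha
  have n2 := inv_norm a' ha'
  set I := Ring.inverse (1 - a)
  set I' := Ring.inverse (1 - a')
  have e : I - I' = I * ((a - a') * I') := by
    calc I - I' = I * ((1 - a') * I') - (I * (1 - a)) * I' := by rw [h1, h2, mul_one, one_mul]
      _ = I * ((a - a') * I') := by noncomm_ring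
  rw [e]
  calc ‖I * ((a - a') * I')‖ ≤ ‖I‖ * (‖a - a'‖ * ‖I'‖) :=
        (norm_mul_le _ _).trans (by gcongr; exact norm_mul_le _ _)
    _ ≤ 2 * (‖a - a'‖ * 2) := by gcongr
    _ = 4 * ‖a - a'‖ := by ring

end inv

theorem t_DET : S_DET := by
  classical
  intro E _ _ _ θ₀ lam₀ r δ C T hr hδ hT hL hF
  obtain ⟨n, b, hb, hsm⟩ := hF (1 / 4) (by norm_num)
  have hth : θ₀ ∈ Metric.ball θ₀ r := Metric.mem_ball_self hr
  have hl0 : |lam₀ - lam₀| < δ := by simpa using hδ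
  -- the neighbourhood
  have hcont : ContinuousAt (fun θ => T θ lam₀) θ₀ :=
    ((hT lam₀ hl0).differentiableAt (Metric.isOpen_ball.mem_nhds hth)).continuousAt
  obtain ⟨r₁, hr₁, hr₁'⟩ := Metric.continuousAt_iff.1 hcont (1 / 8) (by norm_num)
  set r' := min r r₁ with hr'
  set δ' := min δ (1 / (8 * (|C| + 1))) with hδ'
  have hC1 : 0 < |C| + 1 := by positivity
  have hr'0 : 0 < r' := lt_min hr hr₁
  have hδ'0 : 0 < δ' := lt_min hδ (by positivity)
  have hr'r : r' ≤ r := min_le_left _ _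
  have hδ'δ : δ' ≤ δ := min_le_left _ _
  have hballr : ∀ θ ∈ Metric.ball θ₀ r', θ ∈ Metric.ball θ₀ r := fun θ h =>
    Metric.ball_subset_ball hr'r h
  have hlamr : ∀ lam : ℝ, |lam - lam₀| < δ' → |lam - lam₀| < δ := fun lam h => h.trans_le hδ'δ
  have hL' : ∀ θ ∈ Metric.ball θ₀ r', ∀ lam lam' : ℝ, |lam - lam₀| < δ' → |lam' - lam₀| < δ' →
      ‖T θ lam - T θ lam'‖ ≤ |C| * |lam - lam'| := fun θ h lam lam' h1 h2 =>
    (hL θ (hballr θ h) lam lam' (hlamr _ h1) (hlamr _ h2)).trans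
      (by gcongr; exact le_abs_self C)
  have hl0' : |lam₀ - lam₀| < δ' := by simpa using hδ'0
  have hnear : ∀ θ ∈ Metric.ball θ₀ r', ∀ lam : ℝ, |lam - lam₀| < δ' →
      ‖T θ lam - T θ₀ lam₀‖ ≤ 1 / 4 := by
    intro θ h lam h1
    have a1 := hL' θ h lam lam₀ h1 hl0'
    have a2 : ‖T θ lam₀ - T θ₀ lam₀‖ ≤ 1 / 8 := by
      have : dist θ θ₀ < r₁ := (Metric.mem_ball.1 h).trans_le (min_le_right _ _)
      have := hr₁' this
      rw [dist_eq_norm] at this
      exact this.le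
    have a3 : |C| * |lam - lam₀| ≤ 1 / 8 := by
      have : |lam - lam₀| ≤ 1 / (8 * (|C| + 1)) := h1.le.trans (min_le_right _ _)
      calc |C| * |lam - lam₀| ≤ (|C| + 1) * (1 / (8 * (|C| + 1))) := by gcongr; linarith
        _ = 1 / 8 := by field_simp
    calc ‖T θ lam - T θ₀ lam₀‖ = ‖(T θ lam - T θ lam₀) + (T θ lam₀ - T θ₀ lam₀)‖ := by
          congr 1; abel
      _ ≤ ‖T θ lam - T θ lam₀‖ + ‖T θ lam₀ - T θ₀ lam₀‖ := norm_add_le _ _
      _ ≤ 1 / 4 := by linarith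
  -- the projection
  set P := PP b with hP
  have hP1 : ‖(1 : E →L[ℂ] E) - P‖ ≤ 1 :=
    ContinuousLinearMap.opNorm_le_bound _ zero_le_one fun e => by
      rw [one_mul]; exact PP_le b hb e
  have hT0 : ‖T θ₀ lam₀ * (1 - P)‖ ≤ 1 / 4 :=
    ContinuousLinearMap.opNorm_le_bound _ (by norm_num) fun e => by
      have := hsm (e - P e) (fun i => PP_perp b hb e i)
      calc ‖(T θ₀ lam₀ * (1 - P)) e‖ = ‖T θ₀ lam₀ (e - P e)‖ := rfl
        _ ≤ 1 / 4 * ‖e - P e‖ := this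
        _ ≤ 1 / 4 * ‖e‖ := by gcongr; exact PP_le b hb e
  have hsmall : ∀ θ ∈ Metric.ball θ₀ r', ∀ lam : ℝ, |lam - lam₀| < δ' →
      ‖T θ lam * (1 - P)‖ ≤ 1 / 2 := by
    intro θ h lam h1
    have e1 : T θ lam * (1 - P) = (T θ lam - T θ₀ lam₀) * (1 - P) + T θ₀ lam₀ * (1 - P) := by
      rw [← add_mul]; congr 1; abel
    rw [e1]
    calc ‖(T θ lam - T θ₀ lam₀) * (1 - P) + T θ₀ lam₀ * (1 - P)‖
        ≤ ‖T θ lam - T θ₀ lam₀‖ * ‖(1 : E →L[ℂ] E) - P‖ + ‖T θ₀ lam₀ * (1 - P)‖ :=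
          (norm_add_le _ _).trans (by gcongr; exact norm_mul_le _ _)
      _ ≤ 1 / 4 * 1 + 1 / 4 := by
          gcongr
          exact hnear θ h lam h1
      _ = 1 / 2 := by norm_num
  -- the bound for `T`
  set B : ℝ := ‖T θ₀ lam₀‖ + 1 / 4 with hB
  have hB0 : 0 ≤ B := by positivity
  have hTB : ∀ θ ∈ Metric.ball θ₀ r', ∀ lam : ℝ, |lam - lam₀| < δ' → ‖T θ lam‖ ≤ B := by
    intro θ h lam h1
    have := hnear θ h lam h1
    calc ‖T θ lam‖ = ‖T θ₀ lam₀ + (T θ lam - T θ₀ lam₀)‖ := by congr 1; abel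
      _ ≤ ‖T θ₀ lam₀‖ + ‖T θ lam - T θ₀ lam₀‖ := norm_add_le _ _
      _ ≤ B := by rw [hB]; gcongr
  -- the operator `S`
  set S : ℂ → ℝ → E →L[ℂ] E := fun θ lam => Ring.inverse (1 - T θ lam * (1 - P)) * T θ lam with hS
  have hSB : ∀ θ ∈ Metric.ball θ₀ r', ∀ lam : ℝ, |lam - lam₀| < δ' → ‖S θ lam‖ ≤ 2 * B := by
    intro θ h lam h1
    refine (norm_mul_le _ _).trans ?_
    gcongr
    · exact inv_norm _ (hsmall θ h lam h1)
    · exact hTB θ h lam h1
  have hSL : ∀ θ ∈ Metric.ball θ₀ r', ∀ lam lam' : ℝ, |lam - lam₀| < δ' → |lam' - lam₀| < δ' →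
      ‖S θ lam - S θ lam'‖ ≤ (4 * B + 2) * (|C| * |lam - lam'|) := by
    intro θ h lam lam' h1 h2
    have hTl := hL' θ h lam lam' h1 h2
    have hI := inv_lip _ _ (hsmall θ h lam h1) (hsmall θ h lam' h2)
    have hI' := inv_norm _ (hsmall θ h lam' h2)
    have hd : ‖T θ lam * (1 - P) - T θ lam' * (1 - P)‖ ≤ |C| * |lam - lam'| := by
      rw [← sub_mul]
      calc ‖(T θ lam - T θ lam') * (1 - P)‖ ≤ ‖T θ lam - T θ lam'‖ * ‖(1 : E →L[ℂ] E) - P‖ :=
            norm_mul_le _ _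
        _ ≤ ‖T θ lam - T θ lam'‖ * 1 := by gcongr
        _ ≤ |C| * |lam - lam'| := by rw [mul_one]; exact hTl
    have e1 : S θ lam - S θ lam' =
        (Ring.inverse (1 - T θ lam * (1 - P)) - Ring.inverse (1 - T θ lam' * (1 - P))) * T θ lam +
        Ring.inverse (1 - T θ lam' * (1 - P)) * (T θ lam - T θ lam') := by
      simp only [hS]; noncomm_ring
    rw [e1]
    calc _ ≤ ‖Ring.inverse (1 - T θ lam * (1 - P)) - Ring.inverse (1 - T θ lam' * (1 - P))‖ *
          ‖T θ lam‖ + ‖Ring.inverse (1 - T θ lam' * (1 - P))‖ * ‖T θ lam - T θ lam'‖ :=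
          (norm_add_le _ _).trans (add_le_add (norm_mul_le _ _) (norm_mul_le _ _))
      _ ≤ (4 * (|C| * |lam - lam'|)) * B + 2 * (|C| * |lam - lam'|) := by
          gcongr
          · exact hI.trans (by gcongr)
          · exact hTB θ h lam h1
      _ = (4 * B + 2) * (|C| * |lam - lam'|) := by ring
  have hSD : ∀ lam : ℝ, |lam - lam₀| < δ' →
      DifferentiableOn ℂ (fun θ => S θ lam) (Metric.ball θ₀ r') := by
    intro lam h1
    have hTd : DifferentiableOn ℂ (fun θ => T θ lam) (Metric.ball θ₀ r') :=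
      (hT lam (hlamr lam h1)).mono hballr
    have h2 : DifferentiableOn ℂ (fun θ => 1 - T θ lam * (1 - P)) (Metric.ball θ₀ r') :=
      (hTd.mul_const _).const_sub _
    refine DifferentiableOn.fun_mul ?_ hTd
    intro θ h
    have h3 := h2 θ h
    have h4 : DifferentiableAt ℂ Ring.inverse (1 - T θ lam * (1 - P)) :=
      differentiableAt_inverse (isUnit_half _ (hsmall θ h lam h1))
    exact h4.comp_differentiableWithinAt θ h3
  -- the determinant
  obtain ⟨C₁, hC₁, hdet⟩ := det_lip n (1 + 2 * B) (by linarith)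
  have hbn : ∀ i, ‖b i‖ = 1 := fun i => hb.1 i
  have hen : ∀ (A : E →L[ℂ] E) (i j : Fin n), ‖(inner ℂ (b i) (A (b j)) : ℂ)‖ ≤ ‖A‖ := by
    intro A i j
    calc ‖(inner ℂ (b i) (A (b j)) : ℂ)‖ ≤ ‖b i‖ * ‖A (b j)‖ := norm_inner_le_norm _ _
      _ ≤ 1 * (‖A‖ * ‖b j‖) := by
          gcongr
          · exact (hbn i).le
          · exact A.le_opNorm _
      _ = ‖A‖ := by rw [hbn j]; ring
  refine ⟨r', δ', C₁ * ((4 * B + 2) * |C|), fun θ lam => (MM b (S θ lam)).det, hr'0, hr'r,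
    hδ'0, hδ'δ, ?_, ?_, ?_⟩
  · intro lam h1
    refine det_diff n _ _ fun i j => ?_
    simp only [MM]
    refine DifferentiableOn.const_sub ?_ _
    have h2 := hSD lam h1
    have e1 : (fun θ => (inner ℂ (b i) (S θ lam (b j)) : ℂ)) = fun θ =>
        (innerSL ℂ (b i)) (S θ lam (b j)) := by
      funext θ; simp
    rw [e1]
    intro θ h
    have h3 : DifferentiableWithinAt ℂ (fun θ => S θ lam (b j)) (Metric.ball θ₀ r') θ :=
      (h2 θ h).clm_apply (differentiableWithinAt_const _)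
    exact ((innerSL ℂ (b i)).differentiableAt).comp_differentiableWithinAt θ h3
  · intro θ h lam lam' h1 h2
    have hent : ∀ lam : ℝ, |lam - lam₀| < δ' → ∀ i j, ‖MM b (S θ lam) i j‖ ≤ 1 + 2 * B := by
      intro lam h1 i j
      simp only [MM]
      refine (norm_sub_le _ _).trans ?_
      gcongr
      · split_ifs <;> simp
      · exact (hen _ i j).trans (hSB θ h lam h1)
    have := hdet (MM b (S θ lam)) (MM b (S θ lam')) ((4 * B + 2) * (|C| * |lam - lam'|))
      (by positivity) (hent lam h1) (hent lam' h2) (fun i j => by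
        simp only [MM]
        have e1 : ((if i = j then (1 : ℂ) else 0) - inner ℂ (b i) (S θ lam (b j))) -
            ((if i = j then (1 : ℂ) else 0) - inner ℂ (b i) (S θ lam' (b j))) =
            - inner ℂ (b i) ((S θ lam - S θ lam') (b j)) := by
          rw [ContinuousLinearMap.sub_apply, inner_sub_right]; ring
        rw [e1, norm_neg]
        exact (hen _ i j).trans (hSL θ h lam lam' h1 h2))
    calc _ ≤ _ := this
      _ = C₁ * ((4 * B + 2) * |C|) * |lam - lam'| := by ring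
  · intro θ h lam h1
    have hu := isUnit_half _ (hsmall θ h lam h1)
    rw [← unit_iff b hb]
    have e1 : 1 - T θ lam = (1 - T θ lam * (1 - P)) * (1 - S θ lam * P) := by
      have h2 := Ring.mul_inverse_cancel _ hu
      have e2 : (1 - T θ lam * (1 - P)) * (S θ lam * P) = T θ lam * P := by
        rw [← mul_assoc, hS]
        simp only
        rw [← mul_assoc, h2, one_mul]
      rw [mul_sub, e2]; noncomm_ring
    rw [e1]
    exact hu.mul_left_iff
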